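import Mathlib

/-!
Exponential moment bounds for permutational words read by a weighted automaton.
-/

namespace Q168.PW

open Finset

variable {k : ℕ}

/-- the orderings of the set `R` -/
noncomputable def W (R : Finset (Fin k)) : Finset (List (Fin k)) := R.toList.permutations.toFinset

theorem mem_W {R : Finset (Fin k)} {l : List (Fin k)} : l ∈ W R ↔ l.Nodup ∧ l.toFinset = R := by
  rw [W, List.mem_toFinset, List.mem_permutations]
  constructor
  · intro h
    refine ⟨h.nodup_iff.2 R.nodup_toList, ?_⟩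
    rw [List.toFinset_eq_of_perm _ _ h, Finset.toList_toFinset]
  · rintro ⟨h1, h2⟩
    refine List.perm_of_nodup_nodup_toFinset_eq h1 R.nodup_toList ?_
    rw [h2, Finset.toList_toFinset]

theorem length_of_mem_W {R : Finset (Fin k)} {l : List (Fin k)} (h : l ∈ W R) :
    l.length = R.card := by
  rw [mem_W] at h
  rw [← h.2, List.toFinset_card_of_nodup h.1]

theorem card_W (R : Finset (Fin k)) : (W R).card = R.card.factorial := by
  rw [W, List.toFinset_card_of_nodup (List.nodup_permutations _ R.nodup_toList),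
    List.length_permutations, Finset.length_toList]

theorem sum_W (R : Finset (Fin k)) (hR : R.Nonempty) (f : List (Fin k) → ℝ) :
    ∑ l ∈ W R, f l = ∑ t ∈ R, ∑ l ∈ W (R.erase t), f (t :: l) := by
  rw [Finset.sum_sigma']
  symm
  refine Finset.sum_nbij (fun p => p.1 :: p.2) ?_ ?_ ?_ ?_
  · rintro ⟨t, l⟩ h
    rw [Finset.mem_sigma] at h
    obtain ⟨h1, h2⟩ := h
    rw [mem_W] at h2 ⊢
    simp only at h1 h2 ⊢
    refine ⟨List.nodup_cons.2 ⟨fun ht => ?_, h2.1⟩, ?_⟩
    · rw [← List.mem_toFinset, h2.2] at ht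
      exact Finset.notMem_erase t R ht
    · rw [List.toFinset_cons, h2.2, Finset.insert_erase h1]
  · rintro ⟨t, l⟩ _ ⟨t', l'⟩ _ h
    simp only [List.cons.injEq] at h
    obtain ⟨rfl, rfl⟩ := h
    rfl
  · intro l hl
    rw [Finset.mem_coe, mem_W] at hl
    rcases l with _ | ⟨t, l⟩
    · exfalso
      rw [List.toFinset_nil] at hl
      exact hR.ne_empty hl.2.symm
    · refine ⟨⟨t, l⟩, ?_, rfl⟩
      rw [Finset.mem_coe, Finset.mem_sigma, mem_W]
      have h1 := List.nodup_cons.1 hl.1
      have h2 : t ∈ R := by rw [← hl.2]; simp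
      refine ⟨h2, h1.2, ?_⟩
      simp only
      rw [← hl.2, List.toFinset_cons, Finset.erase_insert]
      rw [List.mem_toFinset]; exact h1.1
  · rintro ⟨t, l⟩ _
    rfl

theorem exp_le_quad {x : ℝ} (hx : |x| ≤ 1) : Real.exp x ≤ 1 + x + x ^ 2 := by
  have := Real.abs_exp_sub_one_sub_id_le hx
  have h2 := le_abs_self (Real.exp x - 1 - x)
  linarith

theorem avg_exp (R : Finset (Fin k)) (x : Fin k → ℝ) (μ K a : ℝ)
    (hμ : ∑ t ∈ R, x t = R.card * μ) (hK : ∀ t ∈ R, |x t - μ| ≤ K) (ha : |a| * K ≤ 1) :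
    ∑ t ∈ R, Real.exp (a * (x t - μ)) ≤ R.card * Real.exp (a ^ 2 * K ^ 2) := by
  have h1 : ∀ t ∈ R, Real.exp (a * (x t - μ)) ≤ 1 + a * (x t - μ) + a ^ 2 * K ^ 2 := by
    intro t ht
    have hKt := hK t ht
    have hK0 : 0 ≤ K := (abs_nonneg _).trans hKt
    have hb : |a * (x t - μ)| ≤ 1 := by
      rw [abs_mul]
      exact (mul_le_mul_of_nonneg_left hKt (abs_nonneg _)).trans ha
    refine (exp_le_quad hb).trans ?_
    have : (a * (x t - μ)) ^ 2 ≤ a ^ 2 * K ^ 2 := by
      rw [mul_pow]
      refine mul_le_mul_of_nonneg_left ?_ (sq_nonneg a)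
      rw [← sq_abs]
      exact pow_le_pow_left₀ (abs_nonneg _) hKt 2
    linarith
  calc ∑ t ∈ R, Real.exp (a * (x t - μ)) ≤ ∑ t ∈ R, (1 + a * (x t - μ) + a ^ 2 * K ^ 2) :=
        Finset.sum_le_sum h1
    _ = R.card * (1 + a ^ 2 * K ^ 2) := by
        rw [Finset.sum_add_distrib, Finset.sum_add_distrib, ← Finset.mul_sum,
          Finset.sum_sub_distrib, hμ]
        simp only [Finset.sum_const, nsmul_eq_mul]
        ring
    _ ≤ R.card * Real.exp (a ^ 2 * K ^ 2) := by
        refine mul_le_mul_of_nonneg_left ?_ (Nat.cast_nonneg _)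
        have := Real.add_one_le_exp (a ^ 2 * K ^ 2)
        linarith

/-- the average of `x` over a nonempty set lies in `[0, K]`. -/
theorem avg_mem (R : Finset (Fin k)) (hR : R.Nonempty) (x : Fin k → ℝ) (μ K : ℝ)
    (hμ : ∑ t ∈ R, x t = R.card * μ) (hx : ∀ t, 0 ≤ x t ∧ x t ≤ K) : 0 ≤ μ ∧ μ ≤ K := by
  have hc : (0 : ℝ) < R.card := by exact_mod_cast hR.card_pos
  constructor
  · have : 0 ≤ ∑ t ∈ R, x t := Finset.sum_nonneg fun t _ => (hx t).1
    rw [hμ] at this
    exact nonneg_of_mul_nonneg_right this hc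
  · have : ∑ t ∈ R, x t ≤ ∑ _t ∈ R, K := Finset.sum_le_sum fun t _ => (hx t).2
    rw [hμ, Finset.sum_const, nsmul_eq_mul] at this
    exact le_of_mul_le_mul_left this hc

section walk
variable {V : Type*} (δ : V → Fin k → V) (x : V → Fin k → ℝ)

/-- cost of reading `l` from `v` -/
def cost : V → List (Fin k) → ℝ
  | _, [] => 0
  | v, t :: l => x v t + cost (δ v t) l

/-- compensator: the sum of the averages of the costs over the remaining letters -/
noncomputable def comp : V → List (Fin k) → ℝ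
  | _, [] => 0
  | v, t :: l => ((t :: l).map (x v)).sum / (t :: l).length + comp (δ v t) l

theorem list_sum_eq {l : List (Fin k)} (h : l.Nodup) (y : Fin k → ℝ) :
    (l.map y).sum = ∑ t ∈ l.toFinset, y t := (List.sum_toFinset y h).symm

theorem partA {K a : ℝ} (ha0 : 0 ≤ a) (ha : a * K ≤ 1)
    (hx : ∀ v t, 0 ≤ x v t ∧ x v t ≤ K) :
    ∀ (n : ℕ) (R : Finset (Fin k)), R.card = n → ∀ v : V,
      ∑ l ∈ W R, Real.exp (-a * (cost δ x v l - comp δ x v l)) ≤
        n.factorial * Real.exp (a ^ 2 * K ^ 2 * n) := by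
  intro n
  induction n with
  | zero =>
    intro R hR v
    rw [Finset.card_eq_zero] at hR
    subst hR
    have : W (∅ : Finset (Fin k)) = {[]} := by
      ext l; rw [mem_W, Finset.mem_singleton]
      constructor
      · rintro ⟨_, h⟩; exact List.toFinset_eq_empty_iff l |>.1 h
      · rintro rfl; simp
    rw [this]
    simp [cost, comp]
  | succ n ih =>
    intro R hR v
    have hne : R.Nonempty := by rw [← Finset.card_pos]; omega
    have hc : (0 : ℝ) < R.card := by exact_mod_cast hne.card_pos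
    set μ : ℝ := (∑ t ∈ R, x v t) / R.card with hμdef
    have hμ : ∑ t ∈ R, x v t = R.card * μ := by rw [hμdef]; field_simp
    rw [sum_W R hne]
    have h1 : ∀ t ∈ R, ∑ l ∈ W (R.erase t),
        Real.exp (-a * (cost δ x v (t :: l) - comp δ x v (t :: l))) ≤
        Real.exp (-a * (x v t - μ)) * (n.factorial * Real.exp (a ^ 2 * K ^ 2 * n)) := by
      intro t ht
      have h2 : ∀ l ∈ W (R.erase t),
          Real.exp (-a * (cost δ x v (t :: l) - comp δ x v (t :: l))) =
          Real.exp (-a * (x v t - μ)) *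
            Real.exp (-a * (cost δ x (δ v t) l - comp δ x (δ v t) l)) := by
        intro l hl
        rw [← Real.exp_add]
        congr 1
        have hl' := mem_W.1 hl
        have hmem : (t :: l) ∈ W R := by
          rw [mem_W]
          refine ⟨List.nodup_cons.2 ⟨fun h => ?_, hl'.1⟩, ?_⟩
          · rw [← List.mem_toFinset, hl'.2] at h; exact Finset.notMem_erase t R h
          · rw [List.toFinset_cons, hl'.2, Finset.insert_erase ht]
        have h3 : ((t :: l).map (x v)).sum / (t :: l).length = μ := by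
          rw [list_sum_eq (mem_W.1 hmem).1, (mem_W.1 hmem).2, length_of_mem_W hmem]
        rw [cost, comp, h3]
        ring
      rw [Finset.sum_congr rfl h2, ← Finset.mul_sum]
      refine mul_le_mul_of_nonneg_left ?_ (Real.exp_nonneg _)
      exact ih (R.erase t) (by rw [Finset.card_erase_of_mem ht, hR]; rfl) (δ v t)
    refine (Finset.sum_le_sum h1).trans ?_
    rw [← Finset.sum_mul]
    have hb := avg_mem R hne (x v) μ K hμ (hx v)
    have h4 := avg_exp R (x v) μ K (-a) hμ (fun t _ => by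
      rw [abs_le]; constructor <;> linarith [(hx v t).1, (hx v t).2, hb.1, hb.2])
      (by rw [abs_neg, abs_of_nonneg ha0]; exact ha)
    calc (∑ t ∈ R, Real.exp (-a * (x v t - μ))) * (n.factorial * Real.exp (a ^ 2 * K ^ 2 * n))
        ≤ (R.card * Real.exp ((-a) ^ 2 * K ^ 2)) *
          (n.factorial * Real.exp (a ^ 2 * K ^ 2 * n)) :=
          mul_le_mul_of_nonneg_right h4 (by positivity)
      _ = (n + 1).factorial * Real.exp (a ^ 2 * K ^ 2 * ((n + 1 : ℕ) : ℝ)) := by
          rw [hR, Nat.factorial_succ]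
          push_cast
          rw [show a ^ 2 * K ^ 2 * ((n : ℝ) + 1) = (-a) ^ 2 * K ^ 2 + a ^ 2 * K ^ 2 * n by ring,
            Real.exp_add]
          ring

end walk

/-- the sum of `x` over the last `m` letters -/
def lastSum (x : Fin k → ℝ) (m : ℕ) (l : List (Fin k)) : ℝ :=
  ((l.drop (l.length - m)).map x).sum

theorem lastSum_cons (x : Fin k → ℝ) {m : ℕ} {l : List (Fin k)} (h : m ≤ l.length) (t : Fin k) :
    lastSum x m (t :: l) = lastSum x m l := by
  rw [lastSum, lastSum, List.length_cons, Nat.succ_sub h, List.drop_succ_cons]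

theorem partB (x : Fin k → ℝ) {K a : ℝ} (hK : 0 ≤ K) (ha0 : 0 ≤ a) (ha : a * K ≤ 1)
    (hx : ∀ t, 0 ≤ x t ∧ x t ≤ K) {m : ℕ} (hm : 1 ≤ m) :
    ∀ (n : ℕ), m ≤ n → ∀ R : Finset (Fin k), R.card = n →
      ∑ l ∈ W R, Real.exp (-a * lastSum x m l) ≤
        n.factorial * Real.exp (-a * m * ((∑ t ∈ R, x t) / n) +
          2 * a ^ 2 * K ^ 2 * m ^ 2 * (1 / m - 1 / n)) := by
  intro n hmn
  induction n, hmn using Nat.le_induction with
  | base =>
    intro R hR
    have hm0 : (0 : ℝ) < m := by exact_mod_cast hm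
    have h1 : ∀ l ∈ W R, Real.exp (-a * lastSum x m l) = Real.exp (-a * ∑ t ∈ R, x t) := by
      intro l hl
      have hlen := length_of_mem_W hl
      rw [lastSum, hlen, hR, Nat.sub_self, List.drop_zero, list_sum_eq (mem_W.1 hl).1,
        (mem_W.1 hl).2]
    rw [Finset.sum_congr rfl h1, Finset.sum_const, card_W, nsmul_eq_mul, hR]
    refine le_of_eq ?_
    congr 2
    field_simp
    ring
  | succ n hmn ih =>
    intro R hR
    have hm0 : (0 : ℝ) < m := by exact_mod_cast hm
    have hn0 : (0 : ℝ) < n := by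
      have : 0 < n := by omega
      exact_mod_cast this
    have hne : R.Nonempty := by rw [← Finset.card_pos]; omega
    have hc : (0 : ℝ) < R.card := by exact_mod_cast hne.card_pos
    have hcard : (R.card : ℝ) = n + 1 := by rw [hR]; push_cast; ring
    set μ : ℝ := (∑ t ∈ R, x t) / ((n + 1 : ℕ) : ℝ) with hμdef
    have hμ : ∑ t ∈ R, x t = R.card * μ := by
      rw [hμdef, hR]; field_simp
    rw [sum_W R hne]
    have h1 : ∀ t ∈ R, ∑ l ∈ W (R.erase t), Real.exp (-a * lastSum x m (t :: l)) ≤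
        (n.factorial * Real.exp (-a * m * μ + 2 * a ^ 2 * K ^ 2 * m ^ 2 * (1 / m - 1 / n))) *
          Real.exp (a * m / n * (x t - μ)) := by
      intro t ht
      have hcard' : (R.erase t).card = n := by rw [Finset.card_erase_of_mem ht, hR]; rfl
      have h2 : ∀ l ∈ W (R.erase t), Real.exp (-a * lastSum x m (t :: l)) =
          Real.exp (-a * lastSum x m l) := by
        intro l hl
        rw [lastSum_cons x (by rw [length_of_mem_W hl, hcard']; exact hmn)]
      rw [Finset.sum_congr rfl h2]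
      refine (ih (R.erase t) hcard').trans (le_of_eq ?_)
      rw [mul_assoc (n.factorial : ℝ), ← Real.exp_add]
      congr 2
      have h3 : ∑ s ∈ R.erase t, x s = R.card * μ - x t := by
        rw [← hμ, ← Finset.sum_erase_add R x ht]; ring
      rw [h3, hcard]
      field_simp
      ring
    refine (Finset.sum_le_sum h1).trans ?_
    rw [← Finset.mul_sum]
    have hb := avg_mem R hne x μ K hμ hx
    have han : 0 ≤ a * m / n := by positivity
    have hle : a * m / n ≤ a := by
      rw [div_le_iff₀ hn0]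
      have : (m : ℝ) ≤ n := by exact_mod_cast hmn
      nlinarith
    have h4 := avg_exp R x μ K (a * m / n) hμ (fun t _ => by
      rw [abs_le]; constructor <;> linarith [(hx t).1, (hx t).2, hb.1, hb.2])
      (by rw [abs_of_nonneg han]; exact (mul_le_mul_of_nonneg_right hle hK).trans ha)
    refine (mul_le_mul_of_nonneg_left h4 (by positivity)).trans ?_
    rw [hR, Nat.factorial_succ]
    have h5 : (n.factorial : ℝ) *
          Real.exp (-a * m * μ + 2 * a ^ 2 * K ^ 2 * m ^ 2 * (1 / m - 1 / n)) *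
          (((n + 1 : ℕ) : ℝ) * Real.exp ((a * m / n) ^ 2 * K ^ 2)) =
        ((((n + 1) * n.factorial : ℕ)) : ℝ) *
          Real.exp (-a * m * μ + 2 * a ^ 2 * K ^ 2 * m ^ 2 * (1 / m - 1 / n) +
            (a * m / n) ^ 2 * K ^ 2) := by
      rw [Real.exp_add (-a * m * μ + 2 * a ^ 2 * K ^ 2 * m ^ 2 * (1 / m - 1 / n))]
      push_cast
      ring
    rw [h5]
    refine mul_le_mul_of_nonneg_left ?_ (Nat.cast_nonneg _)
    rw [Real.exp_le_exp]
    have h6 : (a * m / n) ^ 2 * K ^ 2 ≤
        2 * a ^ 2 * K ^ 2 * m ^ 2 * (1 / n - 1 / ((n + 1 : ℕ) : ℝ)) := by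
      have h7 : (1 : ℝ) / n ^ 2 ≤ 2 * (1 / n - 1 / ((n + 1 : ℕ) : ℝ)) := by
        push_cast
        rw [div_sub_div _ _ hn0.ne' (by positivity), ← mul_div_assoc,
          div_le_div_iff₀ (by positivity) (by positivity)]
        have : (1 : ℝ) ≤ n := by
          have : 1 ≤ n := by omega
          exact_mod_cast this
        nlinarith
      calc (a * m / n) ^ 2 * K ^ 2 = (a ^ 2 * K ^ 2 * m ^ 2) * (1 / n ^ 2) := by
            rw [div_pow, mul_pow]; ring
        _ ≤ (a ^ 2 * K ^ 2 * m ^ 2) * (2 * (1 / n - 1 / ((n + 1 : ℕ) : ℝ))) :=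
            mul_le_mul_of_nonneg_left h7 (by positivity)
        _ = _ := by ring
    nlinarith [h6]

end Q168.PW
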