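import Pool.Agent.Q168.PW.Basic

/-!
Few permutational words have low cost.
-/

namespace Q168.PW

open Finset

variable {k : ℕ}

theorem markov (S : Finset (List (Fin k))) (Z : List (Fin k) → ℝ) {a b : ℝ} (ha : 0 ≤ a) :
    ((S.filter fun l => Z l ≤ b).card : ℝ) * Real.exp (-a * b) ≤
      ∑ l ∈ S, Real.exp (-a * Z l) := by
  classical
  calc ((S.filter fun l => Z l ≤ b).card : ℝ) * Real.exp (-a * b)
      = ∑ _l ∈ S.filter (fun l => Z l ≤ b), Real.exp (-a * b) := by
        rw [Finset.sum_const, nsmul_eq_mul]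
    _ ≤ ∑ l ∈ S.filter (fun l => Z l ≤ b), Real.exp (-a * Z l) := by
        refine Finset.sum_le_sum fun l hl => ?_
        rw [Real.exp_le_exp]
        have := (Finset.mem_filter.1 hl).2
        nlinarith
    _ ≤ ∑ l ∈ S, Real.exp (-a * Z l) :=
        Finset.sum_le_sum_of_subset_of_nonneg (Finset.filter_subset _ _)
          fun _ _ _ => (Real.exp_nonneg _)

/-- Few orderings of `[k]` have a small sum of the last `m` letters. -/
theorem card_badB (x : Fin k → ℝ) (hk : 1 ≤ k) (hx : ∀ t, 0 ≤ x t ∧ x t ≤ k) {μ : ℝ}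
    (hμ : ∑ t, x t = k * μ) (hμk : μ ≤ k) {m : ℕ} (hm : 1 ≤ m) (hmk : m ≤ k) {θ : ℝ}
    (hθ : 0 ≤ θ) :
    (((W (Finset.univ : Finset (Fin k))).filter
      fun l => lastSum x m l ≤ m * μ - θ * Real.sqrt m).card : ℝ) ≤
      k.factorial * Real.exp (-(θ ^ 2 / (8 * k ^ 2))) := by
  have hk0 : (0 : ℝ) < k := by exact_mod_cast hk
  have hm0 : (0 : ℝ) < m := by exact_mod_cast hm
  set s : ℝ := θ * Real.sqrt m with hs
  have hs0 : 0 ≤ s := by positivity
  have hs2 : s ^ 2 = θ ^ 2 * m := by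
    rw [hs, mul_pow, Real.sq_sqrt hm0.le]
  rcases lt_or_ge ((m : ℝ) * μ) s with hc | hc
  · have : (W (Finset.univ : Finset (Fin k))).filter
        (fun l => lastSum x m l ≤ m * μ - s) = ∅ := by
      rw [Finset.filter_eq_empty_iff]
      intro l _ h
      have h0 : 0 ≤ lastSum x m l := by
        refine List.sum_nonneg fun y hy => ?_
        obtain ⟨t, _, rfl⟩ := List.mem_map.1 hy
        exact (hx t).1
      linarith
    rw [this, Finset.card_empty, Nat.cast_zero]
    positivity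
  · set a : ℝ := s / (4 * k ^ 2 * m) with ha
    have ha0 : 0 ≤ a := by positivity
    have hak : a * k ≤ 1 := by
      rw [ha, div_mul_eq_mul_div, div_le_one (by positivity)]
      have : s ≤ m * k := hc.trans (mul_le_mul_of_nonneg_left hμk hm0.le)
      have hkk : (0:ℝ) ≤ k * (m * k) := by positivity
      nlinarith [mul_le_mul_of_nonneg_right this hk0.le]
    have h1 := markov (W (Finset.univ : Finset (Fin k))) (lastSum x m) (b := m * μ - s) ha0
    have h2 := partB x hk0.le ha0 hak hx hm k hmk Finset.univ (by simp)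
    rw [hμ, mul_div_cancel_left₀ _ hk0.ne'] at h2
    have h3 := h1.trans h2
    rw [← le_div_iff₀ (Real.exp_pos _), mul_div_assoc, ← Real.exp_sub] at h3
    refine h3.trans (mul_le_mul_of_nonneg_left ?_ (Nat.cast_nonneg _))
    rw [Real.exp_le_exp]
    have h4 : 2 * a ^ 2 * (k:ℝ) ^ 2 * m ^ 2 * (1 / m - 1 / k) ≤ 2 * a ^ 2 * (k:ℝ) ^ 2 * m := by
      have h5 : 0 ≤ 2 * a ^ 2 * (k:ℝ) ^ 2 * m ^ 2 * (1 / k) := by positivity
      have h6 : 2 * a ^ 2 * (k:ℝ) ^ 2 * m ^ 2 * (1 / m) = 2 * a ^ 2 * (k:ℝ) ^ 2 * m := by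
        field_simp
      rw [mul_sub, h6]; linarith
    have h7 : -a * s + 2 * a ^ 2 * (k:ℝ) ^ 2 * m = -(θ ^ 2 / (8 * k ^ 2)) := by
      have : -a * s + 2 * a ^ 2 * (k:ℝ) ^ 2 * m = -(s ^ 2 / (8 * k ^ 2 * m)) := by
        rw [ha]; field_simp; ring
      rw [this, hs2]
      field_simp
    linarith

section
variable {V : Type*} (δ : V → Fin k → V) (x : V → Fin k → ℝ)

theorem sqrt_step (n : ℕ) :
    1 / Real.sqrt ((n + 1 : ℕ) : ℝ) + 2 * Real.sqrt n ≤ 2 * Real.sqrt ((n + 1 : ℕ) : ℝ) := by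
  have h1 : (0:ℝ) < ((n + 1 : ℕ) : ℝ) := by positivity
  have h2 : 0 < Real.sqrt ((n + 1 : ℕ) : ℝ) := Real.sqrt_pos.2 h1
  have h3 : Real.sqrt ((n + 1 : ℕ) : ℝ) ^ 2 = n + 1 := by rw [Real.sq_sqrt h1.le]; push_cast; ring
  have h4 : Real.sqrt (n : ℝ) ^ 2 = n := Real.sq_sqrt (Nat.cast_nonneg n)
  have h5 : 0 ≤ Real.sqrt (n : ℝ) := Real.sqrt_nonneg _
  rw [div_add' _ _ _ h2.ne', div_le_iff₀ h2]
  nlinarith [sq_nonneg (Real.sqrt ((n + 1 : ℕ) : ℝ) - Real.sqrt (n : ℝ))]

theorem comp_ge {μ θ : ℝ} (hθ : 0 ≤ θ) : ∀ (l : List (Fin k)) (v : V),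
    (∀ v : V, ∀ m, 1 ≤ m → m ≤ l.length → m * μ - θ * Real.sqrt m < lastSum (x v) m l) →
    l.length * μ - 2 * θ * Real.sqrt l.length ≤ comp δ x v l
  | [], v, _ => by simp [comp]
  | t :: l, v, h => by
    have ih := comp_ge hθ l (δ v t) (fun v m h1 h2 => by
      have := h v m h1 (by rw [List.length_cons]; omega)
      rwa [lastSum_cons _ h2] at this)
    have h1 := h v (l.length + 1) (by omega) (by rw [List.length_cons])
    rw [lastSum, List.length_cons, Nat.sub_self, List.drop_zero] at h1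
    rw [comp, List.length_cons]
    have hn : (0:ℝ) < ((l.length + 1 : ℕ) : ℝ) := by positivity
    have h2 : μ - θ * (1 / Real.sqrt ((l.length + 1 : ℕ) : ℝ)) ≤
        (List.map (x v) (t :: l)).sum / ((l.length + 1 : ℕ) : ℝ) := by
      rw [le_div_iff₀ hn]
      have h3 : θ * (1 / Real.sqrt ((l.length + 1 : ℕ) : ℝ)) * ((l.length + 1 : ℕ) : ℝ) =
          θ * Real.sqrt ((l.length + 1 : ℕ) : ℝ) := by
        have h4 : 0 < Real.sqrt ((l.length + 1 : ℕ) : ℝ) := Real.sqrt_pos.2 hn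
        have h5 := Real.mul_self_sqrt hn.le
        field_simp
        rw [pow_two, h5]
      rw [sub_mul, h3]
      linarith
    have h4 := mul_le_mul_of_nonneg_left (sqrt_step l.length) hθ
    push_cast at h2 h4 ⊢
    nlinarith [h2, ih, h4]

/-- The number of orderings of `[k]` of low cost. -/
theorem card_low [Fintype V] (hk : 1 ≤ k) (hx : ∀ v t, 0 ≤ x v t ∧ x v t ≤ k) {μ : ℝ}
    (hμ : ∀ v, ∑ t, x v t = k * μ) (hμk : μ ≤ k) {θ τ : ℝ} (hθ : 0 ≤ θ) (hτ : 0 ≤ τ)
    (hτk : τ ≤ 2 * k ^ 2) (v : V) :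
    (((W (Finset.univ : Finset (Fin k))).filter
      fun l => cost δ x v l ≤ k * μ - 2 * θ * Real.sqrt k - τ).card : ℝ) ≤
      k.factorial * (Real.exp (-(τ ^ 2 / (4 * k ^ 3))) +
        Fintype.card V * k * Real.exp (-(θ ^ 2 / (8 * k ^ 2)))) := by
  classical
  have hk0 : (0 : ℝ) < k := by exact_mod_cast hk
  set S := W (Finset.univ : Finset (Fin k)) with hS
  set A := S.filter fun l => cost δ x v l - comp δ x v l ≤ -τ with hA
  let B : V → ℕ → Finset (List (Fin k)) := fun u m =>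
    S.filter fun l => lastSum (x u) m l ≤ m * μ - θ * Real.sqrt m
  have hsub : (S.filter fun l => cost δ x v l ≤ k * μ - 2 * θ * Real.sqrt k - τ) ⊆
      A ∪ (Finset.univ : Finset V).biUnion fun u => (Finset.Icc 1 k).biUnion fun m => B u m := by
    intro l hl
    rw [Finset.mem_filter] at hl
    rw [Finset.mem_union]
    by_contra hcon
    push Not at hcon
    have hlen : l.length = k := by
      have := length_of_mem_W hl.1
      simpa using this
    have h1 : ∀ u : V, ∀ m, 1 ≤ m → m ≤ l.length →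
        m * μ - θ * Real.sqrt m < lastSum (x u) m l := by
      intro u m hm hml
      by_contra hle
      push Not at hle
      apply hcon.2
      simp only [Finset.mem_biUnion, Finset.mem_univ, true_and]
      exact ⟨u, m, Finset.mem_Icc.2 ⟨hm, by omega⟩, Finset.mem_filter.2 ⟨hl.1, hle⟩⟩
    have h2 := comp_ge δ x hθ l v h1
    rw [hlen] at h2
    apply hcon.1
    rw [hA, Finset.mem_filter]
    exact ⟨hl.1, by linarith [hl.2]⟩
  have hcardA : (A.card : ℝ) ≤ k.factorial * Real.exp (-(τ ^ 2 / (4 * k ^ 3))) := by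
    set a : ℝ := τ / (2 * k ^ 3) with ha
    have ha0 : 0 ≤ a := by positivity
    have hak : a * k ≤ 1 := by
      rw [ha, div_mul_eq_mul_div, div_le_one (by positivity)]
      nlinarith [mul_le_mul_of_nonneg_right hτk hk0.le]
    have h1 := markov S (fun l => cost δ x v l - comp δ x v l) (b := -τ) ha0
    have h2 := partA δ x ha0 hak hx k Finset.univ (by simp) v
    have h3 := h1.trans h2
    rw [← le_div_iff₀ (Real.exp_pos _), mul_div_assoc, ← Real.exp_sub] at h3
    refine h3.trans (le_of_eq ?_)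
    congr 2
    rw [ha]; field_simp; ring
  have hcardB : ∀ u, ∀ m ∈ Finset.Icc 1 k, ((B u m).card : ℝ) ≤
      k.factorial * Real.exp (-(θ ^ 2 / (8 * k ^ 2))) := by
    intro u m hm
    rw [Finset.mem_Icc] at hm
    exact card_badB (x u) hk (hx u) (hμ u) hμk hm.1 hm.2 hθ
  have h1 : ((S.filter fun l => cost δ x v l ≤ k * μ - 2 * θ * Real.sqrt k - τ).card : ℝ) ≤
      A.card + ∑ u : V, ∑ m ∈ Finset.Icc 1 k, ((B u m).card : ℝ) := by
    have := (Finset.card_le_card hsub).trans ((Finset.card_union_le _ _).trans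
      (Nat.add_le_add_left (Finset.card_biUnion_le.trans
        (Finset.sum_le_sum fun u _ => Finset.card_biUnion_le)) _))
    exact_mod_cast this
  refine h1.trans ?_
  rw [mul_add]
  refine add_le_add hcardA ?_
  calc ∑ u : V, ∑ m ∈ Finset.Icc 1 k, ((B u m).card : ℝ)
      ≤ ∑ _u : V, ∑ _m ∈ Finset.Icc 1 k, k.factorial * Real.exp (-(θ ^ 2 / (8 * k ^ 2))) :=
        Finset.sum_le_sum fun u _ => Finset.sum_le_sum fun m hm => hcardB u m hm
    _ = _ := by
        simp only [Finset.sum_const, Nat.card_Icc, Nat.add_sub_cancel, Finset.card_univ,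
          nsmul_eq_mul]
        ring

end

end Q168.PW
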